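import Mathlib
import Pool.Agent.H16.W.EXW

/-!
# Module EXW2: the example in the coordinates of the period matrix, the involution for all conjugates
(a copy of Pool.Agent.H16.W.exw with one clause stronger)
-/

set_option autoImplicit false

namespace Pool.Agent.H40.W

open Matrix Module Pool.Agent.W437.HC Pool.Agent.W437.HD Pool.Agent.W548.Odd
open Polynomial (aeval)
open Pool.Agent.Y4.K (Pol)
open Pool.Agent.Y4.H (LZ)
open Pool.Agent.H13.N (S_AI S_SPC S_ZW S_PQ S_GSL Xh Zw JX Qs Ps Xs)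
open Pool.Agent.H2.W (WK S_VEC S_GSL2 S_EXW)
open Pool.Agent.H16.W

/-- The statement `S_EXW` with the involution clause for all conjugates of `DZ Z`. -/
theorem exw2 (ai : S_AI) (spc : S_SPC) (zw : S_ZW) (pq : S_PQ) (gsl : S_GSL) (vec : S_VEC)
    (gsl2 : S_GSL2) : ∀ (D M : ℕ) (S : Matrix (Fin D) (Fin D) ℚ) (q : Polynomial ℚ) (α : ℂ), 1 ≤ M → Sᵀ = S → q.Monic →
    Irreducible q → q.natDegree = D → aeval S q = 0 →
    (∀ β : ℂ, aeval β q = 0 → (starRingEnd ℂ) β = β) → aeval α q = 0 →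
    ∃ (Z : Matrix (Fin (D * M + D * M)) (Fin (D * M + D * M)) ℂ)
      (E : Matrix (Fin (D * M + D * M) ⊕ Fin (D * M + D * M))
        (Fin (D * M + D * M) ⊕ Fin (D * M + D * M)) ℚ)
      (ρ : Matrix (Fin (D * M + D * M) ⊕ Fin (D * M + D * M))
        (Fin (D * M + D * M) ⊕ Fin (D * M + D * M)) ℂ →ₗ[ℂ] Matrix (Fin (M + M)) (Fin (M + M)) ℂ),
      Pol Z ∧ aeval E q = 0 ∧
      E.map (fun q : ℚ => (q : ℂ)) * DZ Z = DZ Z * E.map (fun q : ℚ => (q : ℂ)) ∧
      (∀ x ∈ LZ Z, ∀ y ∈ LZ Z, ρ (x * y - y * x) = ρ x * ρ y - ρ y * ρ x) ∧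
      (∀ x ∈ LZ Z, (ρ x).trace = 0) ∧
      (∀ Y : Matrix (Fin (M + M)) (Fin (M + M)) ℂ, Y.trace = 0 →
        ∃ x ∈ LZ Z, ρ x = Y ∧ E.map (fun q : ℚ => (q : ℂ)) * x = α • x) ∧
      (∀ s : ℂ ≃+* ℂ, ρ ((DZ Z).map s) * ρ ((DZ Z).map s) = 1) ∧
      ∀ k : ℂ ≃+* ℂ, k α = α → k Complex.I = Complex.I →
        ∀ x, ρ (x.map (k : ℂ →+* ℂ)) = (ρ x).map (k : ℂ →+* ℂ) := by
  intro D M S q α hM hS hqm hqi hqd hqS hreal hα
  obtain ⟨v, u, l, hv, hu, huv, hfix, hl1, hl2⟩ := vec D S q α hS hqm hqi hqd hqS hreal hα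
  obtain ⟨x, hx⟩ := ai (Fin D × Fin M × Fin M)
  set w : Matrix (Fin (D * M)) (Fin (D * M)) ℝ := WK S x with hw
  set wc : Matrix (Fin (D * M)) (Fin (D * M)) ℂ := WK S fun s => ((x s : ℝ) : ℂ) with hwc
  have hwwc : w.map (fun x : ℝ => (x : ℂ)) = wc := WK_map Complex.ofRealHom S x
  obtain ⟨hpol, hDZ'⟩ := zw (D * M) w
  obtain ⟨hPQ', hJQ'⟩ := pq (D * M)
  set Z := Zw w with hZ
  have hDZ : DZ Z = (-Complex.I) • JX (Xh wc) := by rw [hDZ', hwwc]
  have hPQ : P0 M u * Q0 M v = 1 := by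
    unfold P0 Q0
    rw [Matrix.mul_assoc, ← Matrix.mul_assoc (Ps (D * M)), hPQ', Matrix.one_mul, fromBlocks_multiply,
      Pv_mul_Qv M u v huv]
    simp
  have hJQ : ∀ y : Fin D × Fin M × Fin M → ℂ, JX (Xh (WK S y)) * Q0 M v = Q0 M v *
      fromBlocks (-Xs (wa α y)) (-1 - Xs (wa α y) * Xs (wa α y)) 1 (Xs (wa α y)) := by
    intro y
    unfold Q0
    rw [← Matrix.mul_assoc, hJQ', Matrix.mul_assoc, Matrix.mul_assoc, fromBlocks_multiply,
      fromBlocks_multiply]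
    have h1 := Xs_mul_Qv S hS y v α hv
    have h2 : Xs (WK S y) * Xs (WK S y) * Qv M v = Qv M v * (Xs (wa α y) * Xs (wa α y)) := by
      rw [Matrix.mul_assoc, h1, ← Matrix.mul_assoc, h1, Matrix.mul_assoc]
    congr 1
    congr 1
    · simp only [Matrix.mul_zero, Matrix.zero_mul, add_zero, Matrix.neg_mul, Matrix.mul_neg, h1]
    · simp only [Matrix.mul_zero, Matrix.zero_mul, zero_add, add_zero, Matrix.neg_mul, Matrix.mul_neg,
        Matrix.sub_mul, Matrix.mul_sub, Matrix.one_mul, Matrix.mul_one, h2]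
    · simp only [Matrix.mul_zero, Matrix.zero_mul, zero_add, add_zero, Matrix.one_mul, Matrix.mul_one]
    · simp only [Matrix.mul_zero, Matrix.zero_mul, zero_add, h1]
  -- the projection to the eigenspace
  set ρ0 : Matrix (Fin (D * M + D * M) ⊕ Fin (D * M + D * M)) (Fin (D * M + D * M) ⊕ Fin (D * M + D * M)) ℂ →ₗ[ℂ]
      Matrix (Fin M ⊕ Fin M) (Fin M ⊕ Fin M) ℂ :=
    { toFun := fun a => P0 M u * a * Q0 M v
      map_add' := fun a b => by simp [Matrix.mul_add, Matrix.add_mul]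
      map_smul' := fun c a => by simp } with hρ0
  have hρ0a : ∀ a, ρ0 a = P0 M u * a * Q0 M v := fun a => rfl
  have hρJ : ∀ y : Fin D × Fin M × Fin M → ℂ, ρ0 (JX (Xh (WK S y))) =
      fromBlocks (-Xs (wa α y)) (-1 - Xs (wa α y) * Xs (wa α y)) 1 (Xs (wa α y)) := by
    intro y
    rw [hρ0a, Matrix.mul_assoc, hJQ, ← Matrix.mul_assoc, hPQ, Matrix.one_mul]
  -- the stable space
  let L : Submodule ℂ (Matrix (Fin (D * M + D * M) ⊕ Fin (D * M + D * M)) (Fin (D * M + D * M) ⊕ Fin (D * M + D * M)) ℂ) :=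
    { carrier := {a | a * Q0 M v = Q0 M v * ρ0 a ∧ (ρ0 a).trace = 0}
      zero_mem' := by simp
      add_mem' := by
        rintro a b ⟨ha, ha'⟩ ⟨hb, hb'⟩
        exact ⟨by rw [Matrix.add_mul, ha, hb, map_add, Matrix.mul_add], by
          rw [map_add, Matrix.trace_add, ha', hb', add_zero]⟩
      smul_mem' := by
        rintro c a ⟨ha, ha'⟩
        exact ⟨by rw [Matrix.smul_mul, ha, map_smul, Matrix.mul_smul], by
          rw [map_smul, Matrix.trace_smul, ha', smul_zero]⟩ }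
  have hLm : ∀ a, a ∈ L ↔ a * Q0 M v = Q0 M v * ρ0 a ∧ (ρ0 a).trace = 0 := fun a => Iff.rfl
  have hmul : ∀ a b, a * Q0 M v = Q0 M v * ρ0 a → b * Q0 M v = Q0 M v * ρ0 b →
      ρ0 (a * b) = ρ0 a * ρ0 b := by
    intro a b ha hb
    rw [hρ0a (a * b), Matrix.mul_assoc, Matrix.mul_assoc, hb, ← Matrix.mul_assoc a, ha,
      ← Matrix.mul_assoc, ← Matrix.mul_assoc, hPQ, Matrix.one_mul]
  have hLJ : ∀ y : Fin D × Fin M × Fin M → ℂ, JX (Xh (WK S y)) ∈ L := by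
    intro y
    refine (hLm _).2 ⟨by rw [hρJ, hJQ], ?_⟩
    rw [hρJ]
    simp [Matrix.trace, Fintype.sum_sum_type]
  -- the conjugates
  have hconj : ∀ σ : ℂ ≃+* ℂ, (DZ Z).map σ = σ (-Complex.I) • JX (Xh (WK S fun s => σ ((x s : ℝ) : ℂ))) := by
    intro σ
    have h1 : (JX (Xh wc)).map (σ : ℂ →+* ℂ) = JX (Xh (WK S fun s => σ ((x s : ℝ) : ℂ))) := by
      rw [JX_map', Xh_map', hwc, WK_map]
      rfl
    rw [hDZ, ← h1]
    ext i j
    simp
  have hLZ : LZ Z ≤ L := by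
    refine LA_le_of_conj ?_ ?_
    · rintro d ⟨Z', hZ', rfl⟩ σ
      rw [Set.mem_singleton_iff.1 hZ', hconj]
      exact L.smul_mem _ (hLJ _)
    · intro a ha b hb
      obtain ⟨ha1, ha2⟩ := (hLm a).1 ha
      obtain ⟨hb1, hb2⟩ := (hLm b).1 hb
      refine (hLm _).2 ⟨?_, ?_⟩
      · rw [map_sub, hmul a b ha1 hb1, hmul b a hb1 ha1, Matrix.sub_mul, Matrix.mul_assoc, hb1,
          ← Matrix.mul_assoc, ha1, Matrix.mul_assoc b, ha1, ← Matrix.mul_assoc b, hb1]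
        simp only [Matrix.mul_sub, Matrix.mul_assoc]
      · rw [map_sub, hmul a b ha1 hb1, hmul b a hb1 ha1, Matrix.trace_sub, Matrix.trace_mul_comm,
          sub_self]
  -- the endomorphism
  set E : Matrix (Fin (D * M + D * M) ⊕ Fin (D * M + D * M)) (Fin (D * M + D * M) ⊕ Fin (D * M + D * M)) ℚ :=
    e3 (e2 (S1 M S)) with hE
  have hEc : E.map (fun q : ℚ => (q : ℂ)) = e3 (e2 ((S1 M S).map fun q : ℚ => (q : ℂ))) := by
    have h1 := e3_map (Rat.castHom ℂ) (e2 (S1 M S))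
    rw [e2_map] at h1
    exact h1
  have hEJ : ∀ y : Fin D × Fin M × Fin M → ℂ, E.map (fun q : ℚ => (q : ℂ)) * JX (Xh (WK S y)) =
      JX (Xh (WK S y)) * E.map (fun q : ℚ => (q : ℂ)) := by
    intro y
    rw [hEc]
    refine e3_mul_JX _ _ (e2_mul_Xh _ _ (S1_mul_WK S y) ?_)
    rw [WK_transpose S hS]
    exact S1_mul_WK S _
  let LE : Submodule ℂ (Matrix (Fin (D * M + D * M) ⊕ Fin (D * M + D * M)) (Fin (D * M + D * M) ⊕ Fin (D * M + D * M)) ℂ) :=
    { carrier := {a | E.map (fun q : ℚ => (q : ℂ)) * a = a * E.map (fun q : ℚ => (q : ℂ))}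
      zero_mem' := by simp
      add_mem' := by
        intro a b ha hb
        simp only [Set.mem_ofPred_eq] at ha hb ⊢
        rw [Matrix.mul_add, ha, hb, Matrix.add_mul]
      smul_mem' := by
        intro c a ha
        simp only [Set.mem_ofPred_eq] at ha ⊢
        rw [Matrix.mul_smul, ha, Matrix.smul_mul] }
  have hLE : ∀ a, a ∈ LE ↔ E.map (fun q : ℚ => (q : ℂ)) * a = a * E.map (fun q : ℚ => (q : ℂ)) :=
    fun a => Iff.rfl
  have hLZE : LZ Z ≤ LE := by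
    refine LA_le_of_conj ?_ ?_
    · rintro d ⟨Z', hZ', rfl⟩ σ
      rw [Set.mem_singleton_iff.1 hZ', hconj]
      exact LE.smul_mem _ ((hLE _).2 (hEJ _))
    · intro a ha b hb
      have ha1 := (hLE a).1 ha
      have hb1 := (hLE b).1 hb
      refine (hLE _).2 ?_
      rw [Matrix.mul_sub, Matrix.sub_mul, ← Matrix.mul_assoc, ha1, Matrix.mul_assoc, hb1,
        ← Matrix.mul_assoc _ b a, hb1, Matrix.mul_assoc b _ a, ha1, Matrix.mul_assoc, Matrix.mul_assoc]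
  -- specialization
  have hgen : ∀ y : Fin D × Fin M × Fin M → ℂ, JX (Xh (WK S y)) ∈ LZ Z := by
    intro y
    have hmap : ∀ y : Fin D × Fin M × Fin M → ℂ,
        (JX (Xh (WK S (MvPolynomial.X : Fin D × Fin M × Fin M → MvPolynomial (Fin D × Fin M × Fin M) ℚ)))).map
          (MvPolynomial.aeval y) = JX (Xh (WK S y)) := by
      intro y
      have h1 := JX_map' ((MvPolynomial.aeval y : MvPolynomial (Fin D × Fin M × Fin M) ℚ →ₐ[ℚ] ℂ) : _ →+* ℂ)
        (Xh (WK S (MvPolynomial.X : Fin D × Fin M × Fin M → MvPolynomial (Fin D × Fin M × Fin M) ℚ)))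
      rw [Xh_map', WK_map] at h1
      have h2 : (fun s : Fin D × Fin M × Fin M =>
          ((MvPolynomial.aeval y : MvPolynomial (Fin D × Fin M × Fin M) ℚ →ₐ[ℚ] ℂ) :
            MvPolynomial (Fin D × Fin M × Fin M) ℚ →+* ℂ) (MvPolynomial.X s)) = y := by
        funext s
        simp
      rw [h2] at h1
      exact h1
    have h3 := spc (Fin D × Fin M × Fin M) (Fin (D * M + D * M) ⊕ Fin (D * M + D * M)) (LZ Z)
      (fun γ X hX => LA_aut (γ : ℂ →+* ℂ) hX)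
      (JX (Xh (WK S (MvPolynomial.X : Fin D × Fin M × Fin M → MvPolynomial (Fin D × Fin M × Fin M) ℚ))))
      (fun s => ((x s : ℝ) : ℂ)) hx (by
        rw [hmap, ← hwc]
        have h5 : JX (Xh wc) = Complex.I • DZ Z := by
          rw [hDZ, smul_smul]
          simp
        rw [h5]
        exact (LZ Z).smul_mem _ (LA_self ⟨Z, rfl, rfl⟩)) y
    rw [hmap] at h3
    exact h3
  -- the matrices with one coordinate in the eigenspace
  have hXs : ∀ X : Matrix (Fin M) (Fin M) ℂ,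
      Xs (((1 - Complex.I) / 4) • X + ((1 + Complex.I) / 4) • Xᵀ) = X := by
    intro X
    ext i j
    simp only [Xs, Matrix.add_apply, Matrix.smul_apply, Matrix.transpose_apply, smul_eq_mul]
    have hI : Complex.I ^ 2 = -1 := Complex.I_sq
    linear_combination (-(1 / 2) * X i j + (1 / 2) * X j i) * hI
  have hmul' : ∀ a ∈ LZ Z, ∀ b ∈ LZ Z, ρ0 (a * b - b * a) = ρ0 a * ρ0 b - ρ0 b * ρ0 a := by
    intro a ha b hb
    rw [map_sub, hmul a b ((hLm a).1 (hLZ ha)).1 ((hLm b).1 (hLZ hb)).1,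
      hmul b a ((hLm b).1 (hLZ hb)).1 ((hLm a).1 (hLZ ha)).1]
  -- the image
  have himg : ∀ Y : Matrix (Fin M ⊕ Fin M) (Fin M ⊕ Fin M) ℂ, Y.trace = 0 →
      Y ∈ (LZ Z).map ρ0 := by
    refine gsl M _ hM ?_ ?_
    · rintro _ ⟨a, ha, rfl⟩ _ ⟨b, hb, rfl⟩
      exact ⟨a * b - b * a, LA_br ha hb, hmul' a ha b hb⟩
    · intro X
      refine ⟨JX (Xh (WK S fun s : Fin D × Fin M × Fin M => l s.1 *
        (((1 - Complex.I) / 4) • X + ((1 + Complex.I) / 4) • Xᵀ) s.2.1 s.2.2)), hgen _, ?_⟩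
      rw [hρJ, wa_l α l hl1, hXs]
  let Nα : Submodule ℂ (Matrix (Fin (D * M + D * M) ⊕ Fin (D * M + D * M)) (Fin (D * M + D * M) ⊕ Fin (D * M + D * M)) ℂ) :=
    { carrier := {a | a ∈ LZ Z ∧ E.map (fun q : ℚ => (q : ℂ)) * a = α • a}
      zero_mem' := by
        refine ⟨(LZ Z).zero_mem, ?_⟩
        simp
      add_mem' := by
        rintro a b ⟨ha, ha'⟩ ⟨hb, hb'⟩
        exact ⟨(LZ Z).add_mem ha hb, by rw [Matrix.mul_add, ha', hb', smul_add]⟩
      smul_mem' := by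
        rintro c a ⟨ha, ha'⟩
        exact ⟨(LZ Z).smul_mem c ha, by rw [Matrix.mul_smul, ha', smul_comm]⟩ }
  have hNα : ∀ a, a ∈ Nα ↔ a ∈ LZ Z ∧ E.map (fun q : ℚ => (q : ℂ)) * a = α • a := fun a => Iff.rfl
  have himg' : ∀ Y : Matrix (Fin M ⊕ Fin M) (Fin M ⊕ Fin M) ℂ, Y.trace = 0 → Y ∈ Nα.map ρ0 := by
    refine gsl2 M _ hM ?_ ?_
    · rintro _ ⟨a, ha, rfl⟩ Y hY
      obtain ⟨b, hb, rfl⟩ := himg Y hY
      obtain ⟨ha1, ha2⟩ := (hNα a).1 ha
      refine ⟨a * b - b * a, (hNα _).2 ⟨LA_br ha1 hb, ?_⟩, hmul' a ha1 b hb⟩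
      rw [Matrix.mul_sub, ← Matrix.mul_assoc, ha2, ← Matrix.mul_assoc, (hLE b).1 (hLZE hb),
        Matrix.mul_assoc b, ha2, Matrix.smul_mul, Matrix.mul_smul, smul_sub]
    · intro X
      set U := ((1 - Complex.I) / 4) • X + ((1 + Complex.I) / 4) • Xᵀ with hU
      set y : Fin D × Fin M × Fin M → ℂ := fun s => l s.1 * U s.2.1 s.2.2 with hy
      have hz : WK S (0 : Fin D × Fin M × Fin M → ℂ) = 0 := by
        ext i j
        rw [WK_apply]
        simp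
      have hXh0 : Xh (0 : Matrix (Fin (D * M)) (Fin (D * M)) ℂ) = 0 := by
        unfold Xh
        simp [fromBlocks_zero]
      refine ⟨JX (Xh (WK S y)) - JX (Xh (WK S 0)), (hNα _).2 ⟨(LZ Z).sub_mem (hgen _) (hgen _), ?_⟩, ?_⟩
      · rw [hEc, hz, hXh0]
        refine e3_mul_JX_smul _ _ α (e2_mul_Xh_smul _ _ α (S1_mul_WK_l S α l hl2 U) ?_)
        rw [WK_transpose S hS]
        exact S1_mul_WK_l S α l hl2 Uᵀ
      · rw [map_sub, hρJ, hρJ, hy, wa_l α l hl1, hU, hXs]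
        have h0 : wa α (0 : Fin D × Fin M × Fin M → ℂ) = 0 := by
          ext i j
          simp [wa]
        have h1 : Xs (0 : Matrix (Fin M) (Fin M) ℂ) = 0 := by
          unfold Xs
          simp
        rw [h0, h1, sub_eq_add_neg, fromBlocks_neg, fromBlocks_add]
        congr 1
        · simp
        · simp only [Matrix.mul_zero, sub_zero]
          abel
        · simp
        · simp
  -- reindexing
  let e : Matrix (Fin M ⊕ Fin M) (Fin M ⊕ Fin M) ℂ ≃ₗ[ℂ] Matrix (Fin (M + M)) (Fin (M + M)) ℂ :=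
    Matrix.reindexLinearEquiv ℂ ℂ (finSumFinEquiv (m := M) (n := M)) (finSumFinEquiv (m := M) (n := M))
  have hemul : ∀ a b : Matrix (Fin M ⊕ Fin M) (Fin M ⊕ Fin M) ℂ, e (a * b) = e a * e b := by
    intro a b
    simp [e, Matrix.coe_reindexLinearEquiv, Matrix.submatrix_mul_equiv]
  have hetr : ∀ a : Matrix (Fin M ⊕ Fin M) (Fin M ⊕ Fin M) ℂ, (e a).trace = a.trace := by
    intro a
    simp only [e, Matrix.coe_reindexLinearEquiv, Matrix.reindex_apply, Matrix.trace,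
      Matrix.diag_apply, Matrix.submatrix_apply]
    exact Equiv.sum_comp finSumFinEquiv.symm (fun i => a i i)
  refine ⟨Z, E, e.toLinearMap ∘ₗ ρ0, hpol, aeval_E S q hqS, (hLE _).1 (hLZE (LA_self ⟨Z, rfl, rfl⟩)),
    ?_, ?_, ?_, ?_, ?_⟩
  · intro a ha b hb
    simp only [LinearMap.comp_apply, LinearEquiv.coe_coe]
    rw [hmul' a ha b hb, map_sub, hemul, hemul]
  · intro a ha
    simp only [LinearMap.comp_apply, LinearEquiv.coe_coe]
    rw [hetr]
    exact ((hLm a).1 (hLZ ha)).2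
  · intro Y hY
    obtain ⟨a, ha, ha'⟩ := himg' (e.symm Y) (by rw [← hetr, LinearEquiv.apply_symm_apply, hY])
    obtain ⟨ha1, ha2⟩ := (hNα a).1 ha
    refine ⟨a, ha1, ?_, ha2⟩
    simp only [LinearMap.comp_apply, LinearEquiv.coe_coe]
    rw [ha', LinearEquiv.apply_symm_apply]
  · intro s
    simp only [LinearMap.comp_apply, LinearEquiv.coe_coe]
    rw [← hemul, hconj s, map_smul, hρJ]
    generalize Xs (wa α fun t => s ((x t : ℝ) : ℂ)) = X
    have h6 : (s (-Complex.I) • fromBlocks (-X) (-1 - X * X) 1 X) *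
        (s (-Complex.I) • fromBlocks (-X) (-1 - X * X) 1 X) =
        (1 : Matrix (Fin M ⊕ Fin M) (Fin M ⊕ Fin M) ℂ) := by
      rw [Matrix.smul_mul, Matrix.mul_smul, smul_smul, fromBlocks_multiply, ← fromBlocks_one]
      have hI : s (-Complex.I) * s (-Complex.I) = -1 := by
        rw [← map_mul, neg_mul_neg, Complex.I_mul_I, map_neg, map_one]
      rw [hI, neg_one_smul, fromBlocks_neg]
      congr 1 <;> noncomm_ring
    rw [h6]
    simp [e, Matrix.coe_reindexLinearEquiv]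
  · intro k hk hkI a
    simp only [LinearMap.comp_apply, LinearEquiv.coe_coe]
    have h1 : ρ0 (a.map (k : ℂ →+* ℂ)) = (ρ0 a).map (k : ℂ →+* ℂ) := by
      rw [hρ0a, hρ0a, Matrix.map_mul, Matrix.map_mul, P0_map M u k hkI fun i => (hfix k hk i).2,
        Q0_map M v k hkI fun i => (hfix k hk i).1]
    rw [h1]
    rfl

/-- `S_EXW` -/
theorem exw (ai : S_AI) (spc : S_SPC) (zw : S_ZW) (pq : S_PQ) (gsl : S_GSL) (vec : S_VEC)
    (gsl2 : S_GSL2) : S_EXW := by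
  intro D M S q α hM hS hqm hqi hqd hqS hreal hα
  obtain ⟨Z, E, ρ, h1, h2, h3, h4, h5, h6, h7, h8⟩ :=
    exw2 ai spc zw pq gsl vec gsl2 D M S q α hM hS hqm hqi hqd hqS hreal hα
  refine ⟨Z, E, ρ, h1, h2, h3, h4, h5, h6, ?_, h8⟩
  have h9 := h7 (RingEquiv.refl ℂ)
  have h10 : (DZ Z).map (RingEquiv.refl ℂ) = DZ Z := by
    ext i j
    simp
  rw [h10] at h9
  exact h9

end Pool.Agent.H40.W
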